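import Pool.Agent.H89.MW.Closed
import Pool.Agent.H89.L.Q193_LT_Prime

/-!
# The monodromy-weight conjecture and the affine cubic hypersurfaces `T(x, y, z) = 1`

Let `K` be a local field of characteristic zero whose residue field has `q` elements, `ℓ` a prime
different from the residue characteristic, `Ω` an algebraic closure of `ℚ_ℓ`, and `k` a subfield of `K`
(for example `k = K`, or `k` a number field). For a scheme `X` over `k` let
`H n w X = gr^W_w H^n_c(X_{\bar K}, Ω)` be the graded piece of weight `w` of the weight filtration of the
cohomology with compact supports, as a representation of the Galois group of `K` (of which we only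
record the action of a geometric Frobenius element and the logarithm `N` of the monodromy). For smooth
proper `X` one has `H n w X = 0` for `w ≠ n` and `H n n X = H^n(X_{\bar K}, Ω)`. The
monodromy-weight conjecture says that `H^n(X)` is mw pure of weight `n` for all smooth projective
varieties `X` over `K`. (By the theorem of de Jong on alterations, this statement for all smooth
projective varieties of dimension at most `n` over all `K` is equivalent to `(mw)_n` for semistable
schemes.)

We say that `X` has mw pure cohomology with compact supports (`AllPure`) if `gr^W_w H^n_c(X)` is mw pure
of weight `w` for all `n` and `w`.

**Theorem.** Let `Q` be the class of smooth projective varieties over `k` (or any class of smooth proper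
varieties in which every variety has a birational model).

(1) The monodromy-weight conjecture is true for all varieties of the class `Q` if and only if the smooth
affine cubic hypersurfaces `T(x, y, z) = 1`, for all trilinear forms `T` over `k`, have mw pure
cohomology with compact supports. In this case this is true for all separated schemes of finite type
over `k`.

(2) For all `n`, the monodromy-weight conjecture is true for all varieties of the class of dimension at
most `n` if and only if the hypersurfaces `T(x, y, z) = 1` have mw pure cohomology with compact supports
for all trilinear forms `T` such that one of the three blocks of variables has at most `n + 2` variables,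
while the other two blocks are arbitrary. In this case this is true for all separated schemes of finite
type of dimension at most `n`.

(3) If `k = ℚ`, the monodromy-weight conjecture is true for all varieties of the class if and only if
the hypersurfaces `∑_{(i, j, l) ∈ S} x_i y_j z_l = 1` of all finite sets `S` of triples have mw pure
cohomology with compact supports.

By the theorem of Rapoport and Zink (the conjecture in dimension at most two) and (2), all hypersurfaces
`T(x, y, z) = 1` with a block of at most four variables have mw pure cohomology with compact supports;
the first open case, a block of five variables, is equivalent to the conjecture for threefolds. In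
comparison, the conjecture is known for smooth projective hypersurfaces (Scholze).

The proof: in an exact sequence of five representations of the Galois group of `K` the one in the middle
is mw pure of weight `w` if the other four are; this uses that a morphism between mw pure
representations of the same weight is strictly compatible with the monodromy filtrations (these are
given by the weights of the Frobenius). So the class of the schemes with mw pure cohomology with compact
supports is closed under closed-open decompositions (like the class of all schemes for which a motivic
measure vanishes), and it is compatible with affine bundles and with products with `𝔾_m`. This implies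
the theorem by a universality theorem for such classes.
-/

set_option autoImplicit false

open CategoryTheory AlgebraicGeometry Pool.Agent.Y116.UV Pool.Agent.H89.Dev Pool.Agent.H89.MW

universe u v

namespace Pool.Agent.Results.MP_855f4c_ag.CubicHypersurfaces

/-- **The monodromy-weight conjecture and cubic hypersurfaces.** See the explanations above. -/
theorem result {k : Type} [Field k] [CharZero k] {Ω : Type u} [Field Ω] [CharZero Ω]
    [IsAlgClosed Ω] {q : ℕ} (hq : 1 < q) {H : ℤ → ℤ → Sch k → Rep.{u, v} Ω}
    (hH : IsWeightCohomology q H) {Q : Sch k → Prop} (hQ : IsClass Q) (hM : ∀ n, ModelsIn Q n) :
    ((∀ X, Q X → MonodromyWeight q H X) ↔ ∀ F : Form k, AllPure q H F.hyp) ∧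
    (∀ n, ForClass Q (MonodromyWeight q H) n ↔ ForForms (AllPure q H) (n + 2)) ∧
    (Q193.LT.Frac k → ((∀ X, Q X → MonodromyWeight q H X) ↔
      ∀ (a b c : ℕ) (S : Finset (Fin a × Fin b × Fin c)), AllPure q H (tripS k S))) ∧
    (∀ n, ForClass Q (MonodromyWeight q H) n →
      ∀ X : Sch k, FT True X → topologicalKrullDim X.left ≤ n → AllPure q H X) ∧
    ((∀ X, Q X → MonodromyWeight q H X) → ∀ X : Sch k, FT True X → AllPure q H X) := by
  have hP := bnd_allPure hq hH
  have h0 : (∀ X, Q X → MonodromyWeight q H X) ↔ ∀ X, Q X → AllPure q H X :=
    forall_congr' fun X => forall_congr' fun hX =>
      (allPure_iff hH (hQ.smooth X hX) (hQ.proper X hX)).symm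
  have h1 : (∀ X, Q X → MonodromyWeight q H X) ↔ ∀ F : Form k, AllPure q H F.hyp :=
    h0.trans (all_iff hP hQ hM)
  have h2 : (∀ X, Q X → MonodromyWeight q H X) → ∀ X : Sch k, FT True X → AllPure q H X := by
    intro h X hX
    exact universal hP.toUni (S := Set.univ) trivial trivial (fun a b c T _ => h1.mp h ⟨a, b, c, T⟩)
      presents_univ X hX
  refine ⟨h1, fun n => (forClass_iff hH hQ n).trans (class_iff hP hQ (hM n)), fun hk => ⟨?_, ?_⟩,
    fun n h => devissage hP hQ (hM n) ((forClass_iff hH hQ n).mp h), h2⟩
  · intro h a b c S
    exact h2 h _ (ft_aff True)
  · intro h
    rw [h0]
    intro X hX
    exact Q193.LT.universal_frac hk hP.toUni h X (hQ.ft hX)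

end Pool.Agent.Results.MP_855f4c_ag.CubicHypersurfaces
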